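import Pool.Agent.Helper15.HilbFamily

/-!
# There are infinitely many elementary components of Hilbert schemes of points on affine
three-space

`HilbPt k 3 r` is the set of ideals of `k[x, y, z]` of colength `r` with its Zariski topology,
and `IsElementary C` says that `C` is an irreducible component whose general point is an
irreducible subscheme.  For every `R` there is an elementary component for some length `r` with
`R < r ≤ 28 (84 R + 29) ^ 3`; in particular there are infinitely many.
-/

namespace Pool.Agent.Results.MP_5ec99c_ag.InfinitelyManyElementary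

open Pool.Agent.Helper15.Hilb

universe u

theorem result (k : Type u) [Field k] [IsAlgClosed k] (R : ℕ) :
    ∃ r : ℕ, R < r ∧ r ≤ 28 * (84 * R + 29) ^ 3 ∧ ∃ C : Set (HilbPt k 3 r), IsElementary C :=
  haveI : Infinite k := IsAlgClosed.instInfinite
  exists_elementary R

/-- The set of pairs of a length `r ≥ 1` and an elementary component is infinite. -/
theorem infinite_pairs (k : Type u) [Field k] [IsAlgClosed k] :
    {p : Σ r : ℕ, Set (HilbPt k 3 r) | 1 ≤ p.1 ∧ IsElementary p.2}.Infinite := by
  intro hfin
  have hb : BddAbove (Sigma.fst '' {p : Σ r : ℕ, Set (HilbPt k 3 r) | 1 ≤ p.1 ∧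
      IsElementary p.2}) := (hfin.image _).bddAbove
  obtain ⟨R, hR⟩ := hb
  obtain ⟨r, hr, -, C, hC⟩ := result k R
  have : r ≤ R := hR ⟨⟨r, C⟩, ⟨by show 1 ≤ r; omega, hC⟩, rfl⟩
  omega

end Pool.Agent.Results.MP_5ec99c_ag.InfinitelyManyElementary
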